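import Mathlib
import Pool.Agent.V5helper90.NS.Over
import Pool.Agent.H485R3.GTC.Direct

/-!
# All units: the arrangement of the slopes of ordinary families by flips
-/

set_option autoImplicit false

open Polynomial

namespace Pool.Agent.V5helper90.GC

open Pool.Agent.V5helper90.NS Pool.Agent.W518.DN

variable {κ : Type} {p a : ℕ} [hp : Fact p.Prime] {g : κ → ℕ} {P : κ → ℤ[X]}
  {L₀ : IntermediateField ℚ ℂ}

/-- The `p`-adic absolute values of the roots, in the ordinary case. -/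
theorem norm_root {i : κ} (hm : (P i).Monic)
    (hsl : Pool.Agent.V5helper90.NS.HasSlopes p a (fun _ : Fin (g i) => (0 : ℚ)) (P i))
    {x : PadicAlgCl p} (hx : ((P i).map (Int.castRingHom (PadicAlgCl p))).IsRoot x) :
    ‖x‖ = 1 ∨ ‖x‖ = ‖((p ^ a : ℕ) : PadicAlgCl p)‖ := by
  have h1 : spectralNorm ℚ_[p] (AlgebraicClosure ℚ_[p]) x ∈ ((P i).map (Int.castRingHom
      (AlgebraicClosure ℚ_[p]))).roots.map
      (fun x => spectralNorm ℚ_[p] (AlgebraicClosure ℚ_[p]) x) :=
    Multiset.mem_map_of_mem _ ((mem_roots (hm.map _).ne_zero).2 hx)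
  rw [hsl, Multiset.mem_add, Multiset.mem_map, Multiset.mem_map] at h1
  have h2 : spectralNorm ℚ_[p] (AlgebraicClosure ℚ_[p]) x = ‖x‖ := rfl
  rw [h2] at h1
  rcases h1 with ⟨j, -, hj⟩ | ⟨j, -, hj⟩
  · left
    rw [← hj]
    simp
  · right
    rw [← hj]
    have h3 : ‖((p ^ a : ℕ) : PadicAlgCl p)‖ = ((p : ℝ) ^ a)⁻¹ := by
      have h4 : ((p ^ a : ℕ) : PadicAlgCl p) = algebraMap ℚ_[p] (PadicAlgCl p) ((p : ℚ_[p]) ^ a) := by
        rw [map_pow, map_natCast, Nat.cast_pow]
      rw [h4, PadicAlgCl.norm_extends, norm_pow, Padic.norm_p, inv_pow]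
    rw [h3]
    push_cast
    rw [sub_zero, mul_one, Real.rpow_neg (Nat.cast_nonneg _), Real.rpow_natCast]

/-- **All units.** -/
theorem exists_units (h : OverNice L₀ p a g P) (ha : 0 < a)
    (hsl : ∀ i, Pool.Agent.V5helper90.NS.HasSlopes p a (fun _ : Fin (g i) => (0 : ℚ)) (P i))
    (ν : PadicAlgCl p ≃+* ℂ) (Z : Finset ℂ)
    (hZ : ∀ z ∈ Z, ∃ i, ((P i).map (Int.castRingHom ℂ)).IsRoot z)
    (hZc : ∀ z ∈ Z, ((p ^ a : ℕ) : ℂ) / z ∉ Z) :
    ∃ σ : ℂ ≃+* ℂ, (∀ z ∈ Z, ‖ν.symm (σ z)‖ = 1) ∧ ∀ x ∈ L₀, σ x = x := by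
  classical
  have hq : ((p ^ a : ℕ) : ℂ) ≠ 0 := by exact_mod_cast pow_ne_zero a hp.out.ne_zero
  have hmap : ∀ (σ : ℂ ≃+* ℂ) i z, ((P i).map (Int.castRingHom ℂ)).IsRoot z →
      ((P i).map (Int.castRingHom (PadicAlgCl p))).IsRoot (ν.symm (σ z)) := by
    intro σ i z hz
    have h2 : (P i).map (Int.castRingHom (PadicAlgCl p)) =
        ((P i).map (Int.castRingHom ℂ)).map ((ν.symm : ℂ →+* PadicAlgCl p).comp
          (σ : ℂ →+* ℂ)) := by
      rw [Polynomial.map_map]; congr 1; exact RingHom.ext_int _ _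
    rw [h2]
    exact hz.map
  have key : ∀ S : Finset ℂ, S ⊆ Z →
      ∃ σ : ℂ ≃+* ℂ, (∀ z ∈ S, ‖ν.symm (σ z)‖ = 1) ∧ ∀ x ∈ L₀, σ x = x := by
    intro S
    induction S using Finset.induction_on with
    | empty => exact fun _ => ⟨RingEquiv.refl ℂ, fun z hz => absurd hz (Finset.notMem_empty z),
        fun x _ => rfl⟩
    | insert z S hz ih =>
      intro hS
      obtain ⟨σ, h1, h2⟩ := ih fun x hx => hS (Finset.mem_insert_of_mem hx)
      have hzZ : z ∈ Z := hS (Finset.mem_insert_self z S)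
      obtain ⟨i, hi⟩ := hZ z hzZ
      have hz0 : z ≠ 0 := root_ne h.very.nice.flips hp.out hi
      by_cases hu : ‖ν.symm (σ z)‖ = 1
      · refine ⟨σ, fun w hw => ?_, h2⟩
        rcases Finset.mem_insert.1 hw with rfl | hw
        · exact hu
        · exact h1 w hw
      · obtain ⟨f, hf, hfL⟩ := h.flip i z hi
        refine ⟨f.trans σ, fun w hw => ?_, fun x hx => ?_⟩
        · rcases Finset.mem_insert.1 hw with rfl | hw
          · show ‖ν.symm (σ (f w))‖ = 1
            rw [(hf i w hi).1 rfl, map_div₀, map_div₀, map_natCast, map_natCast, norm_div]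
            have h3 := (norm_root (h.very.nice.flips |> fun hF => monic_of hF i) (hsl i)
              (hmap σ i w hi)).resolve_left hu
            rw [h3]
            refine div_self (norm_ne_zero_iff.2 ?_)
            exact_mod_cast pow_ne_zero a hp.out.ne_zero
          · show ‖ν.symm (σ (f w))‖ = 1
            have hwZ : w ∈ Z := hS (Finset.mem_insert_of_mem hw)
            obtain ⟨k, hk⟩ := hZ w hwZ
            have hfw : f w = w := by
              refine (hf k w hk).2 fun h4 => ?_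
              rcases fibre (root_ne h.very.nice.flips hp.out hk) hz0 h4 with h5 | h5
              · exact hz (h5 ▸ hw)
              · exact hZc z hzZ (h5 ▸ hwZ)
            rw [hfw]
            exact h1 w hw
        · show σ (f x) = x
          rw [hfL x hx, h2 x hx]
  exact key Z le_rfl

end Pool.Agent.V5helper90.GC
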