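import Mathlib
import Pool.Agent.H485R3.GTC.Defs

/-!
# The Galois coniveau of a product with an arbitrary variety, over a finite field: definitions
-/

set_option autoImplicit false

open Polynomial

namespace Pool.Agent.V5helper90.GC

open Pool.Agent.H485R3.GTC

/-- The step `ν` of the Galois coniveau filtration of the space `M` with the Frobenius endomorphism
`Φ` (relative to the field with `Q` elements): the span of the generalized eigenvectors whose
eigenvalue `lam` is divisible by `Q ^ ν` in the ring of the algebraic integers. -/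
def coniveau {Ω M : Type} [Field Ω] [AddCommGroup M] [Module Ω M] (Q : Ω) (Φ : M →ₗ[Ω] M)
    (ν : ℕ) : Submodule Ω M :=
  Submodule.span Ω {x | ∃ (lam : Ω) (r : ℕ), IsIntegral ℤ (lam / Q ^ ν) ∧
    ((Φ - lam • LinearMap.id : Module.End Ω M) ^ r) x = 0}

section

variable {Ω I W : Type} [Field Ω] (V : I → Type) [∀ i, AddCommGroup (V i)] [∀ i, Module Ω (V i)]
  [AddCommGroup W] [Module Ω W]

/-- The Frobenius operator on the multilinear forms in variables `v k ∈ V (t k)` with values in `W`:
the form `φ` is mapped to `v ↦ G (φ (F v))`. -/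
def frobForms (F : ∀ i, V i →ₗ[Ω] V i) (G : W →ₗ[Ω] W) {n : ℕ} (t : Fin n → I) :
    MultilinearMap Ω (fun k => V (t k)) W →ₗ[Ω] MultilinearMap Ω (fun k => V (t k)) W where
  toFun φ := G.compMultilinearMap (φ.compLinearMap fun k => F (t k))
  map_add' φ ψ := by
    ext v
    simp
  map_smul' c φ := by
    ext v
    simp

/-- The span of the products of scalar forms with `c` Tate classes of degree two as factors
(`IsDivisorMultiple`) and of elements of the step `ν` of the coniveau filtration of `W`. -/
def tens (F : ∀ i, V i →ₗ[Ω] V i) (G : W →ₗ[Ω] W) (Q : Ω) (c ν : ℕ) {n : ℕ} (t : Fin n → I) :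
    Submodule Ω (MultilinearMap Ω (fun k => V (t k)) W) :=
  Submodule.span Ω {φ | ∃ (ψ : MultilinearMap Ω (fun k => V (t k)) Ω) (w : W),
    IsDivisorMultiple V F Q c t ψ ∧ w ∈ coniveau Q G ν ∧ φ = ψ.smulRight w}

end

/-- The eigenvalues of `G` are roots of a monic polynomial with integral coefficients, all of whose
complex roots have positive powers in the number field `L₀`. -/
def EigenIn (L₀ : IntermediateField ℚ ℂ) {Ω W : Type} [Field Ω] [AddCommGroup W] [Module Ω W]
    (G : W →ₗ[Ω] W) : Prop :=
  ∃ χ : ℤ[X], χ.Monic ∧ (∀ (ρ : Ω) (w : W), w ≠ 0 → G w = ρ • w → aeval ρ χ = 0) ∧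
    ∀ ρ : ℂ, aeval ρ χ = 0 → ∃ m : ℕ, 0 < m ∧ ρ ^ m ∈ L₀

/-- `KunnethConiveau L₀ q P`: the Künneth formula for the Galois coniveau of `A × Z`. Here `A` is the
product of powers of abelian varieties `A i` over the field with `q` elements with the Frobenius
polynomials `P i`, or an abelian variety isogenous to it over the field with `q ^ s` elements; `V i` is a
space on which the Frobenius endomorphism `F i` is diagonalizable and has the eigenvalues `z ^ s`, where
`z` is a root of `P i` (the dual of the first cohomology group of a power of `A i`, with coefficients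
in an algebraically closed field `Ω`), `W` (the cohomology of `Z`) is any space whose Frobenius
endomorphism `G` has eigenvalues with powers in `L₀`. For all `n`, all types `t` of variables and all `ν`
the step `ν` of the coniveau filtration of the space of multilinear forms in variables
`v k ∈ V (t k)` with values in `W` is contained in the sum over `c ≤ ν` of the products of forms with
`c` Tate classes of degree two as factors and elements of the step `ν - c` of `W`. -/
def KunnethConiveau (L₀ : IntermediateField ℚ ℂ) {κ : Type} (q : ℕ) (P : κ → ℤ[X]) : Prop :=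
  ∀ (Ω : Type) [Field Ω] [IsAlgClosed Ω] [CharZero Ω] (s : ℕ), 0 < s →
    ∀ (V : κ → Type) [∀ i, AddCommGroup (V i)] [∀ i, Module Ω (V i)]
      [∀ i, FiniteDimensional Ω (V i)] (F : ∀ i, V i →ₗ[Ω] V i) (W : Type) [AddCommGroup W]
      [Module Ω W] (G : W →ₗ[Ω] W),
      (∀ i, Submodule.span Ω {v : V i | ∃ z : Ω, aeval z (P i) = 0 ∧ F i v = z ^ s • v} = ⊤) →
      EigenIn L₀ G → ∀ {n : ℕ} (t : Fin n → κ) (ν : ℕ),
        coniveau ((q : Ω) ^ s) (frobForms V F G t) ν ≤
          ⨆ (c : ℕ) (_ : c ≤ ν), tens V F G ((q : Ω) ^ s) c (ν - c) t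

end Pool.Agent.V5helper90.GC
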