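import Mathlib
import Pool.Agent.V5helper90.GC.Arr
import Pool.Agent.V5helper90.GC.Defs
import Pool.Agent.H485R3.GTC.Conv
import Pool.Agent.R401.Iso

/-!
# The Kuenneth formula for the Galois coniveau of products with ordinary families
-/

set_option autoImplicit false

open Polynomial

namespace Pool.Agent.V5helper90.GC

open Pool.Agent.V5helper90.NS Pool.Agent.W518.DN Pool.Agent.H485R3 Pool.Agent.H925R2
  Pool.Agent.H485R3.Exact Pool.Agent.H485R3.GTC

/-- An eigenvalue from a generalized eigenvector. -/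
theorem exists_eigenvector {Ω W : Type} [Field Ω] [AddCommGroup W] [Module Ω W] (G : W →ₗ[Ω] W)
    (ρ : Ω) (r : ℕ) (w : W) (hw : w ≠ 0)
    (h : ((G - ρ • LinearMap.id : Module.End Ω W) ^ r) w = 0) : ∃ u : W, u ≠ 0 ∧ G u = ρ • u := by
  induction r generalizing w with
  | zero => exact absurd h hw
  | succ r ih =>
    rw [pow_succ, Module.End.mul_apply] at h
    by_cases h1 : (G - ρ • LinearMap.id : Module.End Ω W) w = 0
    · refine ⟨w, hw, ?_⟩
      rw [LinearMap.sub_apply, sub_eq_zero] at h1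
      exact h1
    · exact ih _ h1 h

section

variable {Ω I W : Type} [Field Ω] {V : I → Type} [∀ i, AddCommGroup (V i)] [∀ i, Module Ω (V i)]
  [AddCommGroup W] [Module Ω W]

theorem frobForms_apply (F : ∀ i, V i →ₗ[Ω] V i) (G : W →ₗ[Ω] W) {n : ℕ} (t : Fin n → I)
    (φ : MultilinearMap Ω (fun k => V (t k)) W) (v : ∀ k, V (t k)) :
    frobForms V F G t φ v = G (φ fun k => F (t k) (v k)) := rfl

/-- The generalized eigenforms on a product of eigenvectors. -/
theorem gen_apply (F : ∀ i, V i →ₗ[Ω] V i) (G : W →ₗ[Ω] W) {n : ℕ} (t : Fin n → I) (lam : Ω)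
    (v : ∀ k, V (t k)) (μ : Fin n → Ω) (hv : ∀ k, F (t k) (v k) = μ k • v k) (hμ : ∏ k, μ k ≠ 0)
    (r : ℕ) (φ : MultilinearMap Ω (fun k => V (t k)) W) :
    (((frobForms V F G t - lam • LinearMap.id :
      Module.End Ω (MultilinearMap Ω (fun k => V (t k)) W)) ^ r) φ) v =
      (∏ k, μ k) ^ r • ((G - (lam / ∏ k, μ k) • LinearMap.id : Module.End Ω W) ^ r) (φ v) := by
  induction r generalizing φ with
  | zero => simp
  | succ r ih =>
    rw [pow_succ, Module.End.mul_apply, ih, pow_succ (G - _), Module.End.mul_apply]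
    have h1 : ((frobForms V F G t - lam • LinearMap.id :
        Module.End Ω (MultilinearMap Ω (fun k => V (t k)) W)) φ) v =
        (∏ k, μ k) • (G - (lam / ∏ k, μ k) • LinearMap.id : Module.End Ω W) (φ v) := by
      rw [LinearMap.sub_apply, LinearMap.smul_apply, LinearMap.id_apply, MultilinearMap.sub_apply,
        MultilinearMap.smul_apply, frobForms_apply, LinearMap.sub_apply, LinearMap.smul_apply,
        LinearMap.id_apply, smul_sub, smul_smul, mul_div_cancel₀ _ hμ]
      have h2 : (fun k => F (t k) (v k)) = fun k => μ k • v k := funext hv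
      rw [h2, MultilinearMap.map_smul_univ, map_smul]
    rw [h1, map_smul, smul_smul, pow_succ]

end

variable {κ : Type} {p a : ℕ} [hp : Fact p.Prime] {g : κ → ℕ} {P : κ → ℤ[X]}
  {L₀ : IntermediateField ℚ ℂ}

theorem aeval_iff {R : Type} [CommRing R] {f : ℤ[X]} {z : R} :
    aeval z f = 0 ↔ (f.map (Int.castRingHom R)).IsRoot z := by
  rw [IsRoot.def, eval_map, aeval_def]
  rfl

theorem aeval_map {R S : Type} [CommRing R] [CommRing S] (e : R →+* S) {f : ℤ[X]} {z : R}
    (h : aeval z f = 0) : aeval (e z) f = 0 := by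
  have h1 := congrArg e h
  rw [map_zero, aeval_def, hom_eval₂] at h1
  rw [aeval_def, ← h1]
  congr 1
  exact RingHom.ext_int _ _

/-- Roots in an algebraically closed field come from the algebraic numbers. -/
theorem exists_lift {Ω : Type} [Field Ω] [CharZero Ω] (j : AlgebraicClosure ℚ →+* Ω) {f : ℤ[X]}
    (hf : f.Monic) {z : Ω} (hz : aeval z f = 0) :
    ∃ y : AlgebraicClosure ℚ, aeval y f = 0 ∧ j y = z := by
  have h1 : z ∈ ((f.map (Int.castRingHom (AlgebraicClosure ℚ))).map j).roots := by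
    rw [mem_roots ((hf.map _).map _).ne_zero, Polynomial.map_map]
    have h2 : j.comp (Int.castRingHom (AlgebraicClosure ℚ)) = Int.castRingHom Ω :=
      RingHom.ext_int _ _
    rw [h2]
    exact aeval_iff.1 hz
  rw [(IsAlgClosed.splits (f.map (Int.castRingHom (AlgebraicClosure ℚ)))).roots_map] at h1
  obtain ⟨y, hy, hyz⟩ := Multiset.mem_map.1 h1
  exact ⟨y, aeval_iff.2 ((mem_roots (hf.map _).ne_zero).1 hy), hyz⟩

theorem norm_natCast_of_ne {l : ℕ} [hl : Fact l.Prime] (h : l ≠ p) (a : ℕ) :
    ‖((p ^ a : ℕ) : PadicAlgCl l)‖ = 1 := by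
  rw [Nat.cast_pow, norm_pow]
  have h4 : (p : PadicAlgCl l) = algebraMap ℚ_[l] (PadicAlgCl l) (p : ℚ_[l]) := by simp
  rw [h4, PadicAlgCl.norm_extends]
  have h5 : ‖(p : ℚ_[l])‖ = 1 := by
    rw [Padic.norm_natCast_eq_one_iff]
    exact (Nat.coprime_primes (Fact.out : l.Prime) hp.out).2 h
  rw [h5, one_pow]

/-- **The Kuenneth formula.** -/
theorem kunneth (h : OverNice L₀ p a g P) (ha : 0 < a)
    (hsl : ∀ i, Pool.Agent.V5helper90.NS.HasSlopes p a (fun _ : Fin (g i) => (0 : ℚ)) (P i)) :
    KunnethConiveau L₀ (p ^ a) P := by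
  classical
  intro Ω _ _ _ s hs V _ _ _ F W _ _ G hF hG n t ν
  obtain ⟨χ, hχm, hχ1, hχ2⟩ := hG
  have hmon : ∀ i, (P i).Monic := monic_of h.very.nice.flips
  have hp' := hp.out
  unfold coniveau
  rw [Submodule.span_le]
  rintro φ ⟨lam, r, hlam, hφ⟩
  set q : Ω := ((p ^ a : ℕ) : Ω) with hq
  have hq0 : q ≠ 0 := by
    rw [hq]
    exact_mod_cast (pow_pos hp'.pos a).ne'
  set Q : Ω := q ^ s with hQ
  have hQ0 : Q ≠ 0 := pow_ne_zero _ hq0
  have hroot0 : ∀ (R : Type) [Field R] [CharZero R] (i : κ) (z : R), aeval z (P i) = 0 → z ≠ 0 := by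
    rintro R _ _ i z hz rfl
    have h1 : ((P i).map (Int.castRingHom ℂ)).IsRoot 0 := by
      rw [← aeval_iff]
      have h2 : (algebraMap ℤ R) ((P i).coeff 0) = 0 := by
        rw [coeff_zero_eq_aeval_zero' (P i), hz]
      have h3 : (P i).coeff 0 = 0 := by
        have h4 : (((P i).coeff 0 : ℤ) : R) = 0 := h2
        exact_mod_cast h4
      rw [← coeff_zero_eq_aeval_zero' (P i), h3, map_zero]
    exact root_ne h.very.nice.flips hp' h1 rfl
  choose d b μ hμE hμ using fun i => exists_eigenbasis (F i)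
    {y : Ω | ∃ z : Ω, aeval z (P i) = 0 ∧ y = z ^ s} (by
      rw [← hF i]
      congr 1
      ext v
      constructor
      · rintro ⟨y, ⟨z, hz, rfl⟩, h⟩
        exact ⟨z, hz, h⟩
      · rintro ⟨z, hz, h⟩
        exact ⟨z ^ s, ⟨z, hz, rfl⟩, h⟩)
  let cp : (∀ k, Fin (d (t k))) → MultilinearMap Ω (fun k => V (t k)) Ω := fun J =>
    (MultilinearMap.mkPiAlgebra Ω (Fin n) Ω).compLinearMap (fun k => (b (t k)).coord (J k))
  have hcp : ∀ J v, cp J v = ∏ k, (b (t k)).coord (J k) (v k) := by
    intro J v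
    change (MultilinearMap.mkPiAlgebra Ω (Fin n) Ω) (fun k => (b (t k)).coord (J k) (v k)) = _
    rw [MultilinearMap.mkPiAlgebra_apply]
  have hexp : φ = ∑ J : (∀ k, Fin (d (t k))), (cp J).smulRight (φ (fun k => b (t k) (J k))) := by
    apply Module.Basis.ext_multilinear (fun k => b (t k))
    intro J
    rw [MultilinearMap.sum_apply, Finset.sum_eq_single J]
    · rw [MultilinearMap.smulRight_apply, hcp]
      have h1 : ∏ k, (b (t k)).coord (J k) (b (t k) (J k)) = 1 := by
        apply Finset.prod_eq_one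
        intro k _
        simp
      rw [h1, one_smul]
    · intro J' _ hJ
      rw [MultilinearMap.smulRight_apply, hcp]
      obtain ⟨k, hk⟩ := Function.ne_iff.1 hJ
      have h1 : ∏ k, (b (t k)).coord (J' k) (b (t k) (J k)) = 0 := by
        apply Finset.prod_eq_zero (Finset.mem_univ k)
        rw [Module.Basis.coord_apply, Module.Basis.repr_self, Finsupp.single_apply,
          if_neg (fun h => hk h.symm)]
      rw [h1, zero_smul]
    · intro h
      exact absurd (Finset.mem_univ J) h
  rw [SetLike.mem_coe, hexp]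
  refine Submodule.sum_mem _ fun J _ => ?_
  set w : W := φ (fun k => b (t k) (J k)) with hw
  by_cases h0 : w = 0
  · rw [h0]
    have h1 : (cp J).smulRight (0 : W) = 0 := by
      ext v
      simp
    rw [h1]
    exact Submodule.zero_mem _
  -- the roots
  have hz : ∀ k, ∃ z : Ω, aeval z (P (t k)) = 0 ∧ μ (t k) (J k) = z ^ s := fun k =>
    hμE (t k) (J k)
  choose z hz1 hz2 using hz
  have hz0 : ∀ k, z k ≠ 0 := fun k => hroot0 Ω (t k) (z k) (hz1 k)
  have hμ0 : ∀ k, μ (t k) (J k) ≠ 0 := fun k => by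
    rw [hz2 k]
    exact pow_ne_zero _ (hz0 k)
  have hμJ : ∏ k, μ (t k) (J k) ≠ 0 := Finset.prod_ne_zero_iff.2 fun k _ => hμ0 k
  set ρ : Ω := lam / ∏ k, μ (t k) (J k) with hρ
  have hgen : ((G - ρ • LinearMap.id : Module.End Ω W) ^ r) w = 0 := by
    have h1 := gen_apply F G t lam (fun k => b (t k) (J k)) (fun k => μ (t k) (J k))
      (fun k => hμ (t k) (J k)) hμJ r φ
    rw [hφ, MultilinearMap.zero_apply] at h1
    have h2 := h1.symm
    rw [smul_eq_zero] at h2
    exact h2.resolve_left (pow_ne_zero _ hμJ)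
  obtain ⟨u, hu0, hu⟩ := exists_eigenvector G ρ r w h0 hgen
  have hρχ : aeval ρ χ = 0 := hχ1 ρ u hu0 hu
  -- lifting to the algebraic numbers
  have halg := isAlgebraic_closure
  have hnor := normal_closure
  let j : AlgebraicClosure ℚ →ₐ[ℚ] Ω := IsAlgClosed.lift
  have hjinj : Function.Injective j := j.toRingHom.injective
  choose β hβ1 hβ2 using fun k => exists_lift (j : AlgebraicClosure ℚ →+* Ω) (hmon (t k)) (hz1 k)
  obtain ⟨ρ', hρ'1, hρ'2⟩ := exists_lift (j : AlgebraicClosure ℚ →+* Ω) hχm hρχ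
  have hβ2' : ∀ k, j (β k) = z k := hβ2
  have hρ'2' : j ρ' = ρ := hρ'2
  -- the matching
  let σ : κ × Ω → κ × Ω := fun x => (x.1, Q / x.2)
  have hσσ : ∀ x, σ (σ x) = x := by
    rintro ⟨i, x⟩
    simp only [σ]
    refine Prod.ext rfl ?_
    simp only
    by_cases hx : x = 0
    · rw [hx, div_zero, div_zero]
    · field_simp
  obtain ⟨τ, hτ1, hτ2, hτ3⟩ := exists_max_matching σ hσσ (fun k => (t k, μ (t k) (J k)))
  have hτt : ∀ k, t (τ k) = t k := by
    intro k
    by_cases h : τ k = k
    · rw [h]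
    · exact congrArg Prod.fst (hτ2 k h)
  have hτμ : ∀ k, τ k ≠ k → μ (t k) (J k) * μ (t (τ k)) (J (τ k)) = Q := by
    intro k h
    have h1 : μ (t (τ k)) (J (τ k)) = Q / μ (t k) (J k) := congrArg Prod.snd (hτ2 k h)
    rw [h1, mul_div_cancel₀ _ (hμ0 k)]
  have hjq : j ((p ^ a : ℕ) : AlgebraicClosure ℚ) = q := by
    rw [map_natCast, hq]
  set M : ℕ := Nat.card {k // τ k ≠ k} with hM
  have hMeven : 2 ∣ M := by
    have h1 : τ ^ 2 = 1 := by
      ext k
      rw [pow_two, Equiv.Perm.mul_apply, hτ1]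
      rfl
    have h2 := Equiv.Perm.two_dvd_card_support h1
    have h3 : τ.support.card = M := by
      rw [hM, Nat.card_eq_fintype_card, Fintype.card_subtype]
      rfl
    rwa [h3] at h2
  obtain ⟨c0, hc0⟩ := hMeven
  -- the coefficient
  have hcoord : ∀ i j x, (b i).coord j (F i x) = μ i j * (b i).coord j x := by
    intro i j x
    have h1 : ((b i).coord j).comp (F i) = μ i j • (b i).coord j := by
      apply (b i).ext
      intro l
      rw [LinearMap.comp_apply, hμ, map_smul, LinearMap.smul_apply, Module.Basis.coord_apply,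
        Module.Basis.repr_self, Finsupp.single_apply]
      by_cases h : l = j
      · rw [h]
      · rw [if_neg h, smul_zero, smul_zero]
    exact congrArg (fun f : V i →ₗ[Ω] Ω => f x) h1
  have hdiv : ∀ c : ℕ, 2 * c ≤ M → IsDivisorMultiple V F Q c t (cp J) := by
    intro c hc
    refine ⟨τ, fun k => (LinearMap.mul Ω Ω).compl₁₂ ((b (t k)).coord (J k))
      ((b (t (τ k))).coord (J (τ k))), fun k => (b (t k)).coord (J k), hτ1, hτt, hc, ?_, ?_⟩
    · intro k x y hk
      simp only [LinearMap.compl₁₂_apply, LinearMap.mul_apply', hcoord]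
      rw [← hτμ k hk]
      ring
    · intro v
      rw [hcp, prod_matching τ hτ1]
      simp only [LinearMap.compl₁₂_apply, LinearMap.mul_apply']
  -- the choice of `c`
  have hgoal : ∃ c ≤ ν, 2 * c ≤ M ∧ IsIntegral ℤ (ρ / Q ^ (ν - c)) := by
    by_cases hcν : ν ≤ c0
    · refine ⟨ν, le_rfl, by omega, ?_⟩
      rw [Nat.sub_self, pow_zero, div_one]
      exact ⟨χ, hχm, hρχ⟩
    rw [not_le] at hcν
    refine ⟨c0, hcν.le, hc0.ge, ?_⟩
    have hint' : IsIntegral ℤ ρ' := ⟨χ, hχm, hρ'1⟩
    have hmain : IsIntegral ℤ (ρ' / (((p ^ a : ℕ) : AlgebraicClosure ℚ) ^ s) ^ (ν - c0)) := by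
      refine isIntegral_of_norm_le _ ?_
      intro l hl e₀
      by_cases hlp : l = p
      · subst hlp
        obtain ⟨θ⟩ := Pool.Agent.R401.Iso.exists_iso l
        set qn : ℝ := ‖((l ^ a : ℕ) : PadicAlgCl l)‖ with hqn
        have hqn01 : 0 < qn ∧ qn < 1 := by
          have h1 := norm_p_pow l a ha
          rw [hqn, Nat.cast_pow]
          exact h1
        -- the unmatched numbers
        let ζ : Fin n → ℂ := fun k => θ (e₀ (β k))
        have hζ : ∀ k, ((P (t k)).map (Int.castRingHom ℂ)).IsRoot (ζ k) := fun k =>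
          aeval_iff.1 (aeval_map ((θ : PadicAlgCl l →+* ℂ).comp (e₀ : AlgebraicClosure ℚ →+* _))
            (hβ1 k))
        let Z : Finset ℂ := (Finset.univ.filter fun k => τ k = k).image ζ
        have hZ : ∀ x ∈ Z, ∃ i, ((P i).map (Int.castRingHom ℂ)).IsRoot x := by
          intro x hx
          obtain ⟨k, -, rfl⟩ := Finset.mem_image.1 hx
          exact ⟨t k, hζ k⟩
        have hZc : ∀ x ∈ Z, ((l ^ a : ℕ) : ℂ) / x ∉ Z := by
          intro x hx hx'
          obtain ⟨k, hk, rfl⟩ := Finset.mem_image.1 hx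
          obtain ⟨k', hk', h1⟩ := Finset.mem_image.1 hx'
          have hk1 := (Finset.mem_filter.1 hk).2
          have hk2 := (Finset.mem_filter.1 hk').2
          have hζ0 : ζ k ≠ 0 := root_ne h.very.nice.flips hp' (hζ k)
          have hq0' : ((l ^ a : ℕ) : ℂ) ≠ 0 := by exact_mod_cast pow_ne_zero a hp'.ne_zero
          have htt : t k' = t k := by
            apply h.inj
            refine eq_of_trace h.very.nice.flips (hζ k') (hζ k) ?_
            rw [h1]
            field_simp
            ring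
          by_cases hkk : k = k'
          · subst hkk
            have h2 : ζ k ^ 2 = ((l ^ a : ℕ) : ℂ) := by
              rw [pow_two]
              nth_rewrite 1 [h1]
              rw [div_mul_cancel₀ _ hζ0]
            exact h.very.nice.sq (t k) (ζ k) (hζ k) h2
          · apply hτ3 k k' hkk hk1 hk2
            simp only [σ]
            refine Prod.ext htt ?_
            simp only
            -- `β k' * β k = q`
            have h2 : β k * β k' = ((l ^ a : ℕ) : AlgebraicClosure ℚ) := by
              have hinj : Function.Injective ((θ : PadicAlgCl l →+* ℂ).comp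
                  (e₀ : AlgebraicClosure ℚ →+* PadicAlgCl l)) := RingHom.injective _
              apply hinj
              rw [map_mul, map_natCast]
              change ζ k * ζ k' = _
              rw [h1, mul_div_cancel₀ _ hζ0]
            have h3 : z k * z k' = q := by
              rw [← hβ2', ← hβ2', ← map_mul, h2, hjq]
            rw [hz2, hz2, hQ, ← h3, mul_pow, mul_div_cancel_left₀ _ (pow_ne_zero _ (hz0 k))]
        obtain ⟨f, hf1, hf2⟩ := exists_units h ha hsl θ Z hZ hZc
        let e : AlgebraicClosure ℚ →+* PadicAlgCl l :=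
          ((θ.symm : ℂ →+* PadicAlgCl l).comp (f : ℂ →+* ℂ)).comp
            ((θ : PadicAlgCl l →+* ℂ).comp (e₀ : AlgebraicClosure ℚ →+* PadicAlgCl l))
        have he : ∀ x, e x = θ.symm (f (θ (e₀ x))) := fun x => rfl
        -- the number `ρ'`
        have hρn : ‖e ρ'‖ = ‖e₀ ρ'‖ := by
          obtain ⟨m, hm, hmL⟩ := hχ2 (θ (e₀ ρ')) (aeval_map ((θ : PadicAlgCl l →+* ℂ).comp
            (e₀ : AlgebraicClosure ℚ →+* _)) hρ'1)
          have h1 := hf2 _ hmL
          have h2 : (e ρ') ^ m = (e₀ ρ') ^ m := by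
            rw [he, ← map_pow, ← map_pow, h1, ← map_pow, RingEquiv.symm_apply_apply]
          have h3 := congrArg norm h2
          rw [norm_pow, norm_pow] at h3
          exact (pow_left_inj₀ (norm_nonneg _) (norm_nonneg _) hm.ne').1 h3
        have hβu : ∀ k, τ k = k → ‖e (β k)‖ = 1 := fun k hk =>
          hf1 (ζ k) (Finset.mem_image_of_mem _ (Finset.mem_filter.2 ⟨Finset.mem_univ _, hk⟩))
        have hββ : ∀ k, τ k ≠ k → (‖e (β k)‖ * ‖e (β (τ k))‖) ^ s = qn ^ s := by
          intro k hk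
          have h1 : (β k * β (τ k)) ^ s = ((l ^ a : ℕ) : AlgebraicClosure ℚ) ^ s := by
            apply hjinj
            rw [map_pow, map_pow, map_mul, hβ2', hβ2', hjq, mul_pow, ← hz2, ← hz2, hτμ k hk]
          have h2 := congrArg (fun x => ‖e x‖) h1
          simp only [map_pow, norm_pow, map_mul, norm_mul, map_natCast] at h2
          exact h2
        have hββ' : ∀ k, τ k ≠ k → ‖e (β k)‖ * ‖e (β (τ k))‖ = qn := fun k hk =>
          (pow_left_inj₀ (mul_nonneg (norm_nonneg _) (norm_nonneg _)) hqn01.1.le hs.ne').1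
            (hββ k hk)
        have hPP : (∏ k, ‖e (β k)‖) ^ 2 = (qn ^ c0) ^ 2 := by
          have h1 : ∏ k, ‖e (β k)‖ = ∏ k, ‖e (β (τ k))‖ :=
            (Equiv.prod_comp τ fun k => ‖e (β k)‖).symm
          have h2 : ∀ k, ‖e (β k)‖ * ‖e (β (τ k))‖ = if τ k ≠ k then qn else 1 := by
            intro k
            by_cases hk : τ k = k
            · rw [if_neg (not_not.2 hk), hk, hβu k hk, mul_one]
            · rw [if_pos hk, hββ' k hk]
          rw [sq]
          conv_lhs =>
            arg 2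
            rw [h1]
          rw [← Finset.prod_mul_distrib, Finset.prod_congr rfl (fun k _ => h2 k),
            Finset.prod_ite, Finset.prod_const, Finset.prod_const_one, mul_one, ← pow_mul,
            mul_comm c0 2, ← hc0, hM, Nat.card_eq_fintype_card, Fintype.card_subtype]
        have hP1 : ∏ k, ‖e (β k)‖ = qn ^ c0 :=
          (pow_left_inj₀ (Finset.prod_nonneg fun _ _ => norm_nonneg _)
            (pow_nonneg hqn01.1.le _) two_ne_zero).1 hPP
        -- the number `lam`
        have hle : (∏ k, ‖e (β k)‖) ^ s * ‖e ρ'‖ ≤ (qn ^ s) ^ ν := by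
          have h1 : j ((∏ k, β k) ^ s * ρ' / (((l ^ a : ℕ) : AlgebraicClosure ℚ) ^ s) ^ ν) =
              lam / Q ^ ν := by
            rw [map_div₀, map_mul, map_pow, map_prod, map_pow, map_pow, hjq, hρ'2']
            congr 1
            rw [← Finset.prod_pow, Finset.prod_congr rfl fun k _ => by
              rw [hβ2' k, ← hz2 k]]
            rw [hρ, mul_div_cancel₀ _ hμJ]
          rw [← h1] at hlam
          have h2 : IsIntegral ℤ ((∏ k, β k) ^ s * ρ' /
              (((l ^ a : ℕ) : AlgebraicClosure ℚ) ^ s) ^ ν) :=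
            (isIntegral_algHom_iff (j.restrictScalars ℤ) j.toRingHom.injective).1 hlam
          have h3 := norm_le_one_of_isIntegral l _ (h2.map e.toIntAlgHom)
          change ‖e _‖ ≤ 1 at h3
          rw [map_div₀, map_mul, map_pow, map_prod, map_pow, map_pow, map_natCast, norm_div,
            norm_pow, norm_mul, norm_pow, norm_prod, norm_pow,
            div_le_one (pow_pos (pow_pos hqn01.1 _) _)] at h3
          exact h3
        rw [map_div₀, map_pow, map_pow, map_natCast, norm_div, norm_pow, norm_pow,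
          div_le_one (pow_pos (pow_pos hqn01.1 _) _), ← hρn]
        rw [hP1] at hle
        have h5 : (qn ^ s) ^ ν = (qn ^ c0) ^ s * (qn ^ s) ^ (ν - c0) := by
          rw [← pow_mul, ← pow_mul, ← pow_mul, ← pow_add]
          congr 1
          have h6 : ν = c0 + (ν - c0) := by omega
          conv_lhs => rw [h6]
          ring
        rw [h5] at hle
        exact le_of_mul_le_mul_left hle (pow_pos (pow_pos hqn01.1 _) _)
      · rw [map_div₀, map_pow, map_pow, map_natCast, norm_div, norm_pow, norm_pow,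
          norm_natCast_of_ne hlp a, one_pow, one_pow, div_one]
        exact norm_le_one_of_isIntegral l _
          (hint'.map (e₀ : AlgebraicClosure ℚ →+* PadicAlgCl l).toIntAlgHom)
    have h1 := hmain.map (j.restrictScalars ℤ)
    have h2 : (j.restrictScalars ℤ) (ρ' / (((p ^ a : ℕ) : AlgebraicClosure ℚ) ^ s) ^ (ν - c0)) =
        ρ / Q ^ (ν - c0) := by
      change j _ = _
      rw [map_div₀, map_pow, map_pow, hjq, hρ'2']
    rwa [h2] at h1
  obtain ⟨c, hcν, hcM, hcI⟩ := hgoal
  refine Submodule.mem_iSup_of_mem c (Submodule.mem_iSup_of_mem hcν ?_)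
  exact Submodule.subset_span ⟨cp J, w, hdiv c hcM,
    Submodule.subset_span ⟨ρ, r, hcI, hgen⟩, rfl⟩

end Pool.Agent.V5helper90.GC
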